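import Pool.Agent.H61.HB.Stmts5
import Pool.Agent.H1.HB.TRS

/-!
# Row TS3 of the board `fn3`: the trilinear bound for the `L²` energy
-/

set_option autoImplicit false

namespace HB

namespace TS3

open TRS

theorem tri_sq (k l : Z2) : √(sq l) ≤ √(sq k) + √(sq (k - l)) := by
  have h1 := Real.sqrt_nonneg (sq k)
  have h2 := Real.sqrt_nonneg (sq (k - l))
  rw [Real.sqrt_le_left (by positivity)]
  have e1 : √(sq k) ^ 2 = sq k := Real.sq_sqrt (sq_nonneg' k)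
  have e2 : √(sq (k - l)) ^ 2 = sq (k - l) := Real.sq_sqrt (sq_nonneg' _)
  have key : -(((k.1 : ℝ) * ((k - l).1 : ℝ)) + (k.2 : ℝ) * ((k - l).2 : ℝ)) ≤
      √(sq k) * √(sq (k - l)) := by
    apply le_of_abs_le
    apply abs_le_of_sq_le_sq' _ (by positivity) |> abs_le.2 |> le_trans (le_of_eq rfl)
    rw [mul_pow, e1, e2]
    unfold sq
    nlinarith [sq_nonneg ((k.1 : ℝ) * ((k - l).2 : ℝ) - (k.2 : ℝ) * ((k - l).1 : ℝ))]
  have e3 : sq l = sq k + sq (k - l) -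
      2 * ((k.1 : ℝ) * ((k - l).1 : ℝ) + (k.2 : ℝ) * ((k - l).2 : ℝ)) := by
    unfold sq
    simp only [Prod.fst_sub, Prod.snd_sub, Int.cast_sub]
    ring
  nlinarith

theorem tri_r (k l : Z2) : √(√(sq l)) ≤ √(√(sq k)) + √(√(sq (k - l))) := by
  have h1 := Real.sqrt_nonneg √(sq k)
  have h2 := Real.sqrt_nonneg √(sq (k - l))
  rw [Real.sqrt_le_left (by positivity)]
  have e1 : √(√(sq k)) ^ 2 = √(sq k) := Real.sq_sqrt (Real.sqrt_nonneg _)
  have e2 : √(√(sq (k - l))) ^ 2 = √(sq (k - l)) := Real.sq_sqrt (Real.sqrt_nonneg _)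
  have := tri_sq k l
  nlinarith [mul_nonneg h1 h2]

/-- `ℓ¹ × ℓ² × ℓ²` -/
theorem tri3 (a b c : Z2 → ℝ) (ha : ∀ k, 0 ≤ a k) (hb : ∀ k, 0 ≤ b k) (hc : ∀ k, 0 ≤ c k)
    (hsa : Summable a) (hsb : Summable fun k => b k ^ 2) (hsc : Summable fun k => c k ^ 2) :
    (Summable fun x : Z2 × Z2 => a x.1 * (b x.2 * c (x.1 - x.2))) ∧
      ∑' x : Z2 × Z2, a x.1 * (b x.2 * c (x.1 - x.2)) ≤
        (∑' k, a k) * (√(∑' k, b k ^ 2) * √(∑' k, c k ^ 2)) := by
  have hc1 : ∀ k : Z2, Summable fun l => c (k - l) ^ 2 := by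
    intro k
    have : (fun l => c (k - l) ^ 2) = (fun l => c l ^ 2) ∘ (Equiv.subLeft k) := by
      funext l
      simp [Equiv.subLeft]
    rw [this]
    exact (Equiv.summable_iff _).2 hsc
  have hc2 : ∀ k : Z2, ∑' l, c (k - l) ^ 2 = ∑' l, c l ^ 2 := by
    intro k
    rw [← Equiv.tsum_eq (Equiv.subLeft k) (fun l => c l ^ 2)]
    exact tsum_congr fun l => by simp [Equiv.subLeft]
  have hcs : ∀ k : Z2, (Summable fun l => b l * c (k - l)) ∧
      ∑' l, b l * c (k - l) ≤ √(∑' l, b l ^ 2) * √(∑' l, c l ^ 2) := by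
    intro k
    have h := cs b (fun l => c (k - l)) hb (fun l => hc _) hsb (hc1 k)
    rw [hc2 k] at h
    exact h
  set M : ℝ := √(∑' l, b l ^ 2) * √(∑' l, c l ^ 2) with hM
  have hsum : Summable fun x : Z2 × Z2 => a x.1 * (b x.2 * c (x.1 - x.2)) := by
    rw [summable_prod_of_nonneg (fun x => mul_nonneg (ha _) (mul_nonneg (hb _) (hc _)))]
    refine ⟨fun k => (hcs k).1.mul_left (a k), ?_⟩
    refine Summable.of_nonneg_of_le (fun k => tsum_nonneg fun l =>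
      mul_nonneg (ha _) (mul_nonneg (hb _) (hc _))) (fun k => ?_) (hsa.mul_right M)
    simp only
    rw [tsum_mul_left]
    exact mul_le_mul_of_nonneg_left (hcs k).2 (ha k)
  refine ⟨hsum, ?_⟩
  rw [hsum.tsum_prod, ← tsum_mul_right]
  refine Summable.tsum_le_tsum (fun k => ?_) ?_ (hsa.mul_right M)
  · simp only
    rw [tsum_mul_left]
    exact mul_le_mul_of_nonneg_left (hcs k).2 (ha k)
  · exact hsum.prod

/-- the substitution -/
def eqv : Z2 × Z2 ≃ Z2 × Z2 where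
  toFun x := (x.1 - x.2, x.1)
  invFun y := (y.2, y.2 - y.1)
  left_inv := by
    rintro ⟨k, l⟩
    simp
  right_inv := by
    rintro ⟨m, n⟩
    simp

end TS3

open TRS TS3 in
theorem ts3_thm (_hY : YNGStmt) (hG : GR3Stmt) (hS : SM3Stmt) : TS3Stmt := by
  intro w f hw hf
  set a : Z2 → ℝ := fun k => ‖off f k‖ with ha
  have ha0 : ∀ k, 0 ≤ a k := fun k => norm_nonneg _
  set r : Z2 → ℝ := fun k => √(√(sq k)) with hr
  have hr0 : ∀ k, 0 ≤ r k := fun k => Real.sqrt_nonneg _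
  set W : Z2 → ℝ := fun l => ∑ j, ‖w j l‖ ^ 2 with hW
  have hW0 : ∀ l, 0 ≤ W l := fun l => Finset.sum_nonneg fun j _ => by positivity
  set g : Z2 → ℝ := fun l => √(√(sq l) * W l) with hg
  have hg0 : ∀ l, 0 ≤ g l := fun l => Real.sqrt_nonneg _
  have hgsq : ∀ l, g l ^ 2 = ∑ j, √(sq l) * ‖w j l‖ ^ 2 := by
    intro l
    rw [hg]
    simp only
    rw [Real.sq_sqrt (mul_nonneg (Real.sqrt_nonneg _) (hW0 l)), hW]
    simp only
    rw [Finset.mul_sum]
  have hgs : Summable fun l => g l ^ 2 := by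
    rw [funext hgsq]
    exact summable_sum fun j _ => (hG.1 (w j) (hw j)).1
  have hgt : ∑' l, g l ^ 2 = hp w := by
    rw [funext hgsq, Summable.tsum_finsetSum fun j _ => (hG.1 (w j) (hw j)).1]
    rfl
  -- the `ℓ¹` factor
  set b : Z2 → ℝ := fun k => √((sq k * √(sq k))⁻¹) with hb
  have hb0 : ∀ k, 0 ≤ b k := fun k => Real.sqrt_nonneg _
  have hb2 : (fun k => b k ^ 2) = fun k : Z2 => (sq k * √(sq k))⁻¹ := by
    funext k
    rw [hb]
    simp only
    exact Real.sq_sqrt (inv_nonneg.2 (mul_nonneg (sq_nonneg' k) (Real.sqrt_nonneg _)))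
  have hsb : Summable fun k => b k ^ 2 := by
    rw [hb2]
    exact hS
  set c : Z2 → ℝ := fun k => sq k * ‖f k‖ with hc
  have hc0 : ∀ k, 0 ≤ c k := fun k => mul_nonneg (sq_nonneg' k) (norm_nonneg _)
  have hf2 : Summable fun k => (1 + sq k) ^ 2 * ‖f k‖ ^ 2 := by
    have h1 := hf
    unfold MemS at h1
    refine h1.congr fun k => ?_
    rw [Real.rpow_two]
  have hc2 : (fun k => c k ^ 2) = fun k : Z2 => sq k ^ 2 * ‖f k‖ ^ 2 := by
    funext k
    rw [hc]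
    simp only
    ring
  have hsc : Summable fun k => c k ^ 2 := by
    rw [hc2]
    refine Summable.of_nonneg_of_le (fun k => by positivity) (fun k => ?_) hf2
    have h1 := sq_nonneg' k
    have h2 : sq k ^ 2 ≤ (1 + sq k) ^ 2 := by nlinarith
    exact mul_le_mul_of_nonneg_right h2 (by positivity)
  have hal : ∀ k, r k * a k ≤ b k * c k := by
    intro k
    by_cases hk : k = 0
    · have h0 : a k = 0 := by
        rw [ha]
        simp [off, hk]
      rw [h0, mul_zero]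
      exact mul_nonneg (hb0 k) (hc0 k)
    · have h1 := one_le_sq hk
      have h3 : a k = ‖f k‖ := by rw [ha]; simp [off, hk]
      have hs : 0 < r k := Real.sqrt_pos.2 (Real.sqrt_pos.2 (by linarith))
      have e1 : r k ^ 2 = √(sq k) := Real.sq_sqrt (Real.sqrt_nonneg _)
      have e2 : (r k ^ 2) ^ 2 = sq k := by
        rw [e1]
        exact Real.sq_sqrt (sq_nonneg' k)
      have e3 : b k = (r k ^ 3)⁻¹ := by
        have e4 : (sq k * √(sq k))⁻¹ = ((r k ^ 3)⁻¹) ^ 2 := by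
          rw [← e1, ← e2]
          rw [inv_pow]
          congr 1
          ring
        rw [hb]
        simp only
        rw [e4]
        exact Real.sqrt_sq (by positivity)
      rw [h3, e3, hc]
      simp only
      rw [← e2]
      apply le_of_eq
      field_simp
  have hα0 : ∀ k, 0 ≤ r k * a k := fun k => mul_nonneg (hr0 k) (ha0 k)
  obtain ⟨hbc, hbc2⟩ := cs b c hb0 hc0 hsb hsc
  have hsα : Summable fun k => r k * a k := Summable.of_nonneg_of_le hα0 hal hbc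
  have hA : ∑' k, r k * a k ≤ √cZ * √(dsS f) := by
    have h1 : ∑' k, r k * a k ≤ ∑' k, b k * c k := hsα.tsum_le_tsum hal hbc
    have h2 : ∑' k, b k ^ 2 = cZ := by rw [hb2]; rfl
    have h3 : ∑' k, c k ^ 2 = dsS f := by rw [hc2]; rfl
    rw [h2, h3] at hbc2
    linarith
  have hsa2 : Summable fun k => a k ^ 2 := by
    refine Summable.of_nonneg_of_le (fun k => by positivity) (fun k => ?_) hf2
    have h1 := sq_nonneg' k
    have h2 : a k ≤ ‖f k‖ := by
      rw [ha]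
      simp only [off]
      split_ifs
      · simp
      · exact le_rfl
    have h3 : a k ^ 2 ≤ ‖f k‖ ^ 2 := pow_le_pow_left₀ (ha0 k) h2 2
    have h4 : (1 : ℝ) ≤ (1 + sq k) ^ 2 := by nlinarith
    have h5 : 0 ≤ ‖f k‖ ^ 2 := by positivity
    nlinarith
  have hfl : √(∑' k, a k ^ 2) = √(flS f) := rfl
  -- the two sums
  obtain ⟨s1, b1⟩ := tri3 (fun k => r k * a k) g a hα0 hg0 ha0 hsα hgs hsa2
  set g' : Z2 → ℝ := fun k => g (-k) with hg'
  have hgs' : Summable fun k => g' k ^ 2 := by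
    have : (fun k => g' k ^ 2) = (fun l => g l ^ 2) ∘ (Equiv.neg Z2) := by
      funext l
      simp [hg']
    rw [this]
    exact (Equiv.summable_iff _).2 hgs
  have hgt' : ∑' k, g' k ^ 2 = ∑' k, g k ^ 2 := by
    rw [← Equiv.tsum_eq (Equiv.neg Z2) (fun l => g l ^ 2)]
    exact tsum_congr fun l => by simp [hg']
  obtain ⟨s2, b2⟩ := tri3 (fun k => r k * a k) a g' hα0 ha0 (fun k => hg0 _) hsα hsa2 hgs'
  have hcomp : ∀ x : Z2 × Z2, r (x.1 - x.2) * a (x.1 - x.2) * (a x.1 * g x.2) =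
      (fun y : Z2 × Z2 => r y.1 * a y.1 * (a y.2 * g' (y.1 - y.2))) (eqv x) := by
    intro x
    simp [eqv, hg']
  have s2' : Summable fun x : Z2 × Z2 =>
      r (x.1 - x.2) * a (x.1 - x.2) * (a x.1 * g x.2) := by
    rw [funext hcomp]
    exact (Equiv.summable_iff eqv).2 s2
  have b2' : ∑' x : Z2 × Z2, r (x.1 - x.2) * a (x.1 - x.2) * (a x.1 * g x.2) ≤
      (∑' k, r k * a k) * (√(∑' k, a k ^ 2) * √(∑' k, g k ^ 2)) := by
    rw [← hgt']
    refine le_trans (le_of_eq ?_) b2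
    rw [← Equiv.tsum_eq eqv (fun y : Z2 × Z2 => r y.1 * a y.1 * (a y.2 * g' (y.1 - y.2)))]
    exact tsum_congr hcomp
  -- the divergence
  have hD : ∀ l, ‖dvg w l‖ ≤ r l * g l := by
    intro l
    have h1 : ‖dvg w l‖ ≤ |(l.1 : ℝ)| * ‖w 0 l‖ + |(l.2 : ℝ)| * ‖w 1 l‖ := by
      unfold dvg
      rw [Fin.sum_univ_two]
      refine (norm_add_le _ _).trans (le_of_eq ?_)
      simp [co]
    have h2 : W l = ‖w 0 l‖ ^ 2 + ‖w 1 l‖ ^ 2 := by
      rw [hW]
      simp only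
      rw [Fin.sum_univ_two]
    have h3 : (|(l.1 : ℝ)| * ‖w 0 l‖ + |(l.2 : ℝ)| * ‖w 1 l‖) ^ 2 ≤ sq l * W l := by
      rw [h2]
      unfold sq
      have e1 : |(l.1 : ℝ)| ^ 2 = (l.1 : ℝ) ^ 2 := sq_abs _
      have e2 : |(l.2 : ℝ)| ^ 2 = (l.2 : ℝ) ^ 2 := sq_abs _
      rw [← e1, ← e2]
      nlinarith [sq_nonneg (|(l.1 : ℝ)| * ‖w 1 l‖ - |(l.2 : ℝ)| * ‖w 0 l‖)]
    have h4 : r l * g l = √(sq l * W l) := by
      rw [hr, hg]
      simp only
      rw [← Real.sqrt_mul (Real.sqrt_nonneg _), ← mul_assoc, Real.mul_self_sqrt (sq_nonneg' l)]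
    rw [h4]
    refine h1.trans ?_
    exact Real.le_sqrt_of_sq_le h3
  have hF : ∀ x : Z2 × Z2, ‖(starRingEnd ℂ) (off f x.1) * dvg w x.2 * off f (x.1 - x.2)‖ ≤
      r x.1 * a x.1 * (g x.2 * a (x.1 - x.2)) +
        r (x.1 - x.2) * a (x.1 - x.2) * (a x.1 * g x.2) := by
    intro x
    rw [norm_mul, norm_mul, RCLike.norm_conj]
    have h1 := hD x.2
    have h2 : r x.2 ≤ r x.1 + r (x.1 - x.2) := tri_r x.1 x.2
    have h3 : ‖dvg w x.2‖ ≤ (r x.1 + r (x.1 - x.2)) * g x.2 :=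
      h1.trans (mul_le_mul_of_nonneg_right h2 (hg0 _))
    calc ‖off f x.1‖ * ‖dvg w x.2‖ * ‖off f (x.1 - x.2)‖
        ≤ a x.1 * ((r x.1 + r (x.1 - x.2)) * g x.2) * a (x.1 - x.2) := by
          refine mul_le_mul_of_nonneg_right ?_ (ha0 _)
          exact mul_le_mul_of_nonneg_left h3 (ha0 _)
      _ = _ := by ring
  have hsumR := s1.add s2'
  have hsum : Summable fun x : Z2 × Z2 =>
      ‖(starRingEnd ℂ) (off f x.1) * dvg w x.2 * off f (x.1 - x.2)‖ :=
    Summable.of_nonneg_of_le (fun x => norm_nonneg _) hF hsumR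
  have h1 : ‖tr3 (dvg w) f‖ ≤ ∑' x : Z2 × Z2,
      ‖(starRingEnd ℂ) (off f x.1) * dvg w x.2 * off f (x.1 - x.2)‖ :=
    norm_tsum_le_tsum_norm hsum
  have h2 := hsum.tsum_le_tsum hF hsumR
  rw [s1.tsum_add s2'] at h2
  rw [hgt] at b1 b2'
  rw [hfl] at b1 b2'
  have h3 : 0 ≤ √(hp w) * √(flS f) := by positivity
  have h4 : (∑' k, r k * a k) * (√(hp w) * √(flS f)) ≤
      √cZ * √(dsS f) * (√(hp w) * √(flS f)) := mul_le_mul_of_nonneg_right hA h3
  calc ‖tr3 (dvg w) f‖ ≤ √cZ * √(dsS f) * (√(hp w) * √(flS f)) +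
        √cZ * √(dsS f) * (√(hp w) * √(flS f)) := by
        refine (h1.trans h2).trans (add_le_add (b1.trans h4) (b2'.trans (le_trans (le_of_eq ?_) h4)))
        ring
    _ = 2 * √cZ * √(hp w) * √(dsS f) * √(flS f) := by ring

end HB
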